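import Mathlib
import Pool.Graph.R_seed8.W211.Cover

/-!
Stability of Shearer's inequality for fractional covers: from families with multiplicities to
real weights.
-/

set_option autoImplicit false

namespace Pool.Agent.KS6_51.UC

open Finset
open Pool.Agent.H488R3.UC

/-- the absolute constant in the entropy form -/
noncomputable def C0 : ℝ := 30 * 10 ^ 7 * 80 ^ 25

theorem C0_pos : 0 < C0 := by unfold C0; positivity

theorem one_le_C0 : 1 ≤ C0 := by
  unfold C0
  have : (1 : ℝ) ≤ 80 ^ 25 := one_le_pow₀ (by norm_num)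
  nlinarith

theorem card_sig {d : ℕ} (k : Finset (Fin d) → ℕ) (P : Finset (Fin d) → Prop) [DecidablePred P] :
    (univ.filter (fun x : (Σ g : Finset (Fin d), Fin (k g)) => P x.1)).card
      = ∑ g ∈ univ.filter P, k g := by
  have h : univ.filter (fun x : (Σ g : Finset (Fin d), Fin (k g)) => P x.1)
      = (univ.filter P).sigma (fun g => (univ : Finset (Fin (k g)))) := by
    ext x
    simp
  rw [h, card_sigma]
  simp

theorem nat_weights {d : ℕ} (hd : 2 ≤ d) (k : Finset (Fin d) → ℕ) (m s : ℕ) (hs0 : 0 < s)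
    (hsm : s ≤ m)
    (hm : ∀ i : Fin d, m ≤ ∑ g ∈ univ.filter (fun g => i ∈ g), k g)
    (hs : ∀ i j : Fin d, i ≠ j → s ≤ ∑ g ∈ univ.filter (fun g => i ∈ g ∧ j ∉ g), k g)
    (S : Finset (Fin d → ℤ)) (hS : S.Nonempty) :
    ∃ B : Fin d → Finset ℤ, (s : ℝ) * ((symmDiff S (Fintype.piFinset B)).card : ℝ)
      ≤ C0 * (∑ g, (k g : ℝ) * hN S g - m * hN S univ) := by
  classical
  have h1 : ∀ v : Fin d, m ≤ cn (fun x : (Σ g : Finset (Fin d), Fin (k g)) => x.1) univ v := by
    intro v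
    unfold cn
    rw [card_sig k (fun g => v ∈ g)]
    exact hm v
  have h2 : ∀ i j : Fin d, i ≠ j → s ≤ (univ.filter
      (fun x : (Σ g : Finset (Fin d), Fin (k g)) => i ∈ x.1 ∧ j ∉ x.1)).card := by
    intro i j hij
    rw [card_sig k (fun g => i ∈ g ∧ j ∉ g)]
    exact hs i j hij
  have h3 : s ≤ Fintype.card (Σ g : Finset (Fin d), Fin (k g)) := by
    have h01 : (⟨0, by omega⟩ : Fin d) ≠ ⟨1, by omega⟩ := by
      intro h
      simp [Fin.ext_iff] at h
    exact (h2 _ _ h01).trans (card_le_univ _)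
  obtain ⟨B, hB⟩ := Pool.Agent.W211.gen_box2
    (fun x : (Σ g : Finset (Fin d), Fin (k g)) => x.1) m s hs0 h3 h1 h2 hsm S hS
  refine ⟨B, ?_⟩
  have e : ∑ x : (Σ g : Finset (Fin d), Fin (k g)), hN S x.1 = ∑ g, (k g : ℝ) * hN S g := by
    rw [Fintype.sum_sigma]
    apply sum_congr rfl
    intro g _
    simp
  rw [e] at hB
  exact hB

theorem hN_nonneg {d : ℕ} (S : Finset (Fin d → ℤ)) (g : Finset (Fin d)) : 0 ≤ hN S g := by
  have := hN_mono S (empty_subset g)
  rwa [hN_empty] at this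

/-- the entropy form of the stability theorem, for real weights -/
theorem real_weights {d : ℕ} (hd : 2 ≤ d) (w : Finset (Fin d) → ℝ) (hw : ∀ g, 0 ≤ w g)
    (m σ : ℝ) (hσ0 : 0 < σ) (hσm : σ ≤ m)
    (hm : ∀ i : Fin d, m ≤ ∑ g ∈ univ.filter (fun g => i ∈ g), w g)
    (hs : ∀ i j : Fin d, i ≠ j → σ ≤ ∑ g ∈ univ.filter (fun g => i ∈ g ∧ j ∉ g), w g)
    (S : Finset (Fin d → ℤ)) (hS : S.Nonempty) :
    ∃ B : Fin d → Finset ℤ, σ * ((symmDiff S (Fintype.piFinset B)).card : ℝ)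
      ≤ C0 * (∑ g, w g * hN S g - m * hN S univ) := by
  classical
  -- a box at minimal distance
  obtain ⟨B, hBmin⟩ : ∃ B : Fin d → Finset ℤ, ∀ B' : Fin d → Finset ℤ,
      (symmDiff S (Fintype.piFinset B)).card ≤ (symmDiff S (Fintype.piFinset B')).card := by
    have hwf := (measure (fun B : Fin d → Finset ℤ =>
      (symmDiff S (Fintype.piFinset B)).card)).wf
    refine ⟨hwf.min Set.univ ⟨fun _ => ∅, trivial⟩, fun B' => ?_⟩
    have := hwf.not_lt_min Set.univ (x := B') trivial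
    exact not_lt.mp this
  refine ⟨B, ?_⟩
  set E : ℝ := C0 * ∑ g, hN S g with hE
  have hE0 : 0 ≤ E := mul_nonneg C0_pos.le (sum_nonneg fun g _ => hN_nonneg S g)
  have hu0 : 0 ≤ hN S univ := hN_nonneg S univ
  have hstep : ∀ N : ℕ, 0 < N → σ * ((symmDiff S (Fintype.piFinset B)).card : ℝ)
      ≤ C0 * (∑ g, w g * hN S g - m * hN S univ) + E / N := by
    intro N hN0
    have hNR : (0 : ℝ) < N := by exact_mod_cast hN0
    have hmpos : 0 < m := lt_of_lt_of_le hσ0 hσm
    have hceil : ∀ g, (N : ℝ) * w g ≤ (⌈(N : ℝ) * w g⌉₊ : ℝ) := fun g => Nat.le_ceil _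
    have hdeg : ∀ P : Finset (Fin d) → Prop, ∀ [DecidablePred P], ∀ x : ℝ,
        x ≤ ∑ g ∈ univ.filter P, w g →
        ⌈(N : ℝ) * x⌉₊ ≤ ∑ g ∈ univ.filter P, ⌈(N : ℝ) * w g⌉₊ := by
      intro P _ x hx
      rw [Nat.ceil_le]
      push_cast
      calc (N : ℝ) * x ≤ N * ∑ g ∈ univ.filter P, w g := mul_le_mul_of_nonneg_left hx hNR.le
        _ = ∑ g ∈ univ.filter P, N * w g := by rw [mul_sum]
        _ ≤ _ := sum_le_sum fun g _ => hceil g
    obtain ⟨B', hB'⟩ := nat_weights hd (fun g => ⌈(N : ℝ) * w g⌉₊) ⌈(N : ℝ) * m⌉₊ ⌈(N : ℝ) * σ⌉₊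
      (Nat.ceil_pos.mpr (mul_pos hNR hσ0))
      (Nat.ceil_le_ceil (mul_le_mul_of_nonneg_left hσm hNR.le))
      (fun i => hdeg (fun g => i ∈ g) m (hm i))
      (fun i j hij => hdeg (fun g => i ∈ g ∧ j ∉ g) σ (hs i j hij)) S hS
    have h1 : (N : ℝ) * (σ * ((symmDiff S (Fintype.piFinset B)).card : ℝ))
        ≤ C0 * (∑ g, ((N : ℝ) * w g + 1) * hN S g - (N * m) * hN S univ) := by
      calc (N : ℝ) * (σ * ((symmDiff S (Fintype.piFinset B)).card : ℝ))
          = ((N : ℝ) * σ) * ((symmDiff S (Fintype.piFinset B)).card : ℝ) := by ring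
        _ ≤ (⌈(N : ℝ) * σ⌉₊ : ℝ) * ((symmDiff S (Fintype.piFinset B')).card : ℝ) := by
            apply mul_le_mul (Nat.le_ceil _) _ (by positivity) (by positivity)
            exact_mod_cast hBmin B'
        _ ≤ C0 * (∑ g, (⌈(N : ℝ) * w g⌉₊ : ℝ) * hN S g - (⌈(N : ℝ) * m⌉₊ : ℝ) * hN S univ) := hB'
        _ ≤ _ := by
            apply mul_le_mul_of_nonneg_left _ C0_pos.le
            apply sub_le_sub
            · apply sum_le_sum
              intro g _
              apply mul_le_mul_of_nonneg_right _ (hN_nonneg S g)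
              exact (Nat.ceil_lt_add_one (mul_nonneg hNR.le (hw g))).le
            · exact mul_le_mul_of_nonneg_right (Nat.le_ceil _) hu0
    have h2 : C0 * (∑ g, ((N : ℝ) * w g + 1) * hN S g - (N * m) * hN S univ)
        = N * (C0 * (∑ g, w g * hN S g - m * hN S univ) + E / N) := by
      have h3 : ∑ g, ((N : ℝ) * w g + 1) * hN S g = N * ∑ g, w g * hN S g + ∑ g, hN S g := by
        rw [mul_sum, ← sum_add_distrib]
        apply sum_congr rfl
        intro g _
        ring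
      rw [h3, hE]
      field_simp
      ring
    rw [h2] at h1
    exact le_of_mul_le_mul_left h1 hNR
  apply le_of_forall_pos_le_add
  intro δ hδ
  obtain ⟨N, hN⟩ := exists_nat_gt (E / δ)
  have hN0 : 0 < N := by
    have : (0 : ℝ) < N := lt_of_le_of_lt (div_nonneg hE0 hδ.le) hN
    exact_mod_cast this
  have hNR : (0 : ℝ) < N := by exact_mod_cast hN0
  refine (hstep N hN0).trans ?_
  have : E / N ≤ δ := by
    rw [div_le_iff₀ hNR]
    rw [div_lt_iff₀ hδ] at hN
    linarith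
  linarith

end Pool.Agent.KS6_51.UC
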