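import Mathlib
import Pool.Agent.KS6_51.UC.Frac

/-!
Stability of Shearer's inequality for fractional covers: arbitrary alphabets.
-/

set_option autoImplicit false

namespace Pool.Agent.KS6_51.UC

open Finset
open Pool.Agent.H488R3.UC

/-- the projection of a point to the coordinates in `g` -/
def pr {d : ℕ} {X : Fin d → Type*} (g : Finset (Fin d)) (x : ∀ i, X i) :
    ∀ i : {i // i ∈ g}, X i.1 := fun i => x i.1

/-- the Shannon entropy (natural logarithm) of the projection to the coordinates in `g` of a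
uniformly random point of `S` -/
noncomputable def ent {d : ℕ} {X : Fin d → Type*} [∀ i, DecidableEq (X i)]
    (S : Finset (∀ i, X i)) (g : Finset (Fin d)) : ℝ :=
  ∑ u ∈ S.image (pr g), Real.negMulLog (((S.filter (fun x => pr g x = u)).card : ℝ) / S.card)

section
variable {d : ℕ} {X : Fin d → Type*} [∀ i, DecidableEq (X i)]

theorem ent_mul (S : Finset (∀ i, X i)) (g : Finset (Fin d)) (hS : S.Nonempty) :
    (S.card : ℝ) * ent S g = S.card * Real.log S.card
      - ∑ x ∈ S, Real.log ((S.filter (fun y => pr g y = pr g x)).card) := by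
  have hN : (0 : ℝ) < S.card := by exact_mod_cast hS.card_pos
  unfold ent
  have h1 : ∀ x ∈ S, pr g x ∈ S.image (pr g) := fun x hx => mem_image_of_mem _ hx
  have h2 : (S.card : ℝ) * Real.log S.card = ∑ x ∈ S, Real.log S.card := by
    rw [sum_const, nsmul_eq_mul]
  rw [h2, ← sum_sub_distrib, ← sum_fiberwise_of_maps_to h1, mul_sum]
  apply sum_congr rfl
  intro u hu
  obtain ⟨x0, hx0, rfl⟩ := mem_image.mp hu
  have hpos : (0 : ℝ) < (S.filter (fun x => pr g x = pr g x0)).card := by
    have h0 : 0 < (S.filter (fun x => pr g x = pr g x0)).card :=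
      card_pos.mpr ⟨x0, mem_filter.mpr ⟨hx0, rfl⟩⟩
    exact_mod_cast h0
  have h3 : ∀ y ∈ S.filter (fun x => pr g x = pr g x0),
      Real.log S.card - Real.log ((S.filter (fun z => pr g z = pr g y)).card)
      = Real.log S.card - Real.log ((S.filter (fun z => pr g z = pr g x0)).card) := by
    intro y hy
    rw [(mem_filter.mp hy).2]
  rw [sum_congr rfl h3, sum_const, nsmul_eq_mul, Real.negMulLog, Real.log_div hpos.ne' hN.ne']
  field_simp
  ring

/-- relabelling of the alphabets by integers -/
theorem exists_relabel (S : Finset (∀ i, X i)) :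
    ∃ f : ∀ i, X i → ℤ, ∀ i, Set.InjOn (f i) (S.image (fun x => x i) : Finset (X i)) := by
  classical
  have h : ∀ i, ∃ f : X i → ℤ, Set.InjOn f (S.image (fun x => x i) : Finset (X i)) := by
    intro i
    set A := S.image (fun x => x i)
    refine ⟨fun a => if h : a ∈ A then ((A.equivFin ⟨a, h⟩ : Fin A.card) : ℕ) else -1, ?_⟩
    intro a ha b hb hab
    have ha' : a ∈ A := ha
    have hb' : b ∈ A := hb
    simp only [ha', hb', dif_pos] at hab
    have h1 : ((A.equivFin ⟨a, ha'⟩ : Fin A.card) : ℕ) = ((A.equivFin ⟨b, hb'⟩ : Fin A.card) : ℕ) := by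
      exact_mod_cast hab
    have h2 := A.equivFin.injective (Fin.ext h1)
    exact congrArg Subtype.val h2
  choose f hf using h
  exact ⟨f, hf⟩

variable (f : ∀ i, X i → ℤ) (S : Finset (∀ i, X i))

/-- relabelling a point -/
def rel (f : ∀ i, X i → ℤ) (x : ∀ i, X i) : Fin d → ℤ := fun i => f i (x i)

theorem rel_inj (hf : ∀ i, Set.InjOn (f i) (S.image (fun x => x i) : Finset (X i))) :
    Set.InjOn (rel f) (S : Set (∀ i, X i)) := by
  intro x hx y hy h
  funext i
  exact hf i (by simpa using ⟨x, hx, rfl⟩) (by simpa using ⟨y, hy, rfl⟩) (congrFun h i)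

theorem rel_agr (hf : ∀ i, Set.InjOn (f i) (S.image (fun x => x i) : Finset (X i)))
    (g : Finset (Fin d)) {x y : ∀ i, X i} (hx : x ∈ S) (hy : y ∈ S) :
    Agr g (rel f x) (rel f y) ↔ pr g y = pr g x := by
  constructor
  · intro h
    funext i
    exact (hf i.1 (by simpa using ⟨x, hx, rfl⟩) (by simpa using ⟨y, hy, rfl⟩) (h i.1 i.2)).symm
  · intro h i hi
    have := congrFun h ⟨i, hi⟩
    simp only [pr] at this
    simp only [rel, this]

theorem rel_fc (hf : ∀ i, Set.InjOn (f i) (S.image (fun x => x i) : Finset (X i)))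
    (g : Finset (Fin d)) {x : ∀ i, X i} (hx : x ∈ S) :
    fc g (S.image (rel f)) (rel f x) = (S.filter (fun y => pr g y = pr g x)).card := by
  unfold fc
  rw [filter_image, card_image_of_injOn]
  · congr 1
    apply filter_congr
    intro y hy
    exact rel_agr f S hf g hx hy
  · apply (rel_inj f S hf).mono
    intro z hz
    exact mem_coe.mpr (mem_filter.mp (mem_coe.mp hz)).1

theorem rel_card (hf : ∀ i, Set.InjOn (f i) (S.image (fun x => x i) : Finset (X i))) :
    (S.image (rel f)).card = S.card := card_image_of_injOn (rel_inj f S hf)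

theorem rel_hN (hf : ∀ i, Set.InjOn (f i) (S.image (fun x => x i) : Finset (X i)))
    (g : Finset (Fin d)) (hS : S.Nonempty) :
    hN (S.image (rel f)) g = S.card * ent S g := by
  rw [ent_mul S g hS]
  unfold hN
  rw [rel_card f S hf, sum_image (rel_inj f S hf)]
  congr 1
  apply sum_congr rfl
  intro x hx
  rw [rel_fc f S hf g hx]

theorem rel_proj (hf : ∀ i, Set.InjOn (f i) (S.image (fun x => x i) : Finset (X i)))
    (g : Finset (Fin d)) :
    (proj g (S.image (rel f))).card = (S.image (pr g)).card := by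
  classical
  unfold proj
  rw [image_image]
  have : ((fun (x : Fin d → ℤ) (i : {i // i ∈ g}) => x i.1) ∘ rel f)
      = (fun u : (∀ i : {i // i ∈ g}, X i.1) => fun i => f i.1 (u i)) ∘ pr g := by
    funext x i
    rfl
  rw [this, ← image_image, card_image_of_injOn]
  intro u hu v hv huv
  have hu' := mem_image.mp (mem_coe.mp hu)
  have hv' := mem_image.mp (mem_coe.mp hv)
  obtain ⟨x, hx, rfl⟩ := hu'
  obtain ⟨y, hy, rfl⟩ := hv'
  funext i
  exact hf i.1 (by simpa using ⟨x, hx, rfl⟩) (by simpa using ⟨y, hy, rfl⟩) (congrFun huv i)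

theorem rel_box (hf : ∀ i, Set.InjOn (f i) (S.image (fun x => x i) : Finset (X i)))
    (B' : Fin d → Finset ℤ) :
    ∃ B : ∀ i, Finset (X i), (symmDiff S (Fintype.piFinset B)).card
      ≤ (symmDiff (S.image (rel f)) (Fintype.piFinset B')).card := by
  classical
  refine ⟨fun i => (S.image (fun x => x i)).filter (fun a => f i a ∈ B' i), ?_⟩
  set A : ∀ i, Finset (X i) := fun i => S.image (fun x => x i) with hA
  have hSA : S ⊆ Fintype.piFinset A := by
    intro x hx
    rw [Fintype.mem_piFinset]
    intro i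
    exact mem_image_of_mem _ hx
  have hinj : Set.InjOn (rel f) (Fintype.piFinset A : Finset (∀ i, X i)) := by
    intro x hx y hy h
    have hx' := Fintype.mem_piFinset.mp (mem_coe.mp hx)
    have hy' := Fintype.mem_piFinset.mp (mem_coe.mp hy)
    funext i
    exact hf i (mem_coe.mpr (hx' i)) (mem_coe.mpr (hy' i)) (congrFun h i)
  have hBA : (Fintype.piFinset fun i => (A i).filter (fun a => f i a ∈ B' i))
      ⊆ Fintype.piFinset A := Fintype.piFinset_subset _ _ (fun i => filter_subset _ _)
  apply card_le_card_of_injOn (rel f)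
  · intro x hx
    have hx := mem_coe.mp hx
    apply mem_coe.mpr
    rw [mem_symmDiff] at hx ⊢
    rcases hx with ⟨h1, h2⟩ | ⟨h1, h2⟩
    · left
      refine ⟨mem_image_of_mem _ h1, fun h3 => h2 ?_⟩
      rw [Fintype.mem_piFinset] at h3 ⊢
      intro i
      rw [mem_filter]
      exact ⟨mem_image_of_mem _ h1, h3 i⟩
    · right
      refine ⟨?_, fun h3 => h2 ?_⟩
      · rw [Fintype.mem_piFinset] at h1 ⊢
        intro i
        exact (mem_filter.mp (h1 i)).2
      · obtain ⟨y, hy, hyx⟩ := mem_image.mp h3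
        have := hinj (mem_coe.mpr (hSA hy)) (mem_coe.mpr (hBA h1)) hyx
        rwa [← this]
  · apply hinj.mono
    intro x hx
    have hx := mem_coe.mp hx
    rw [mem_symmDiff] at hx
    apply mem_coe.mpr
    rcases hx with ⟨h1, _⟩ | ⟨h1, _⟩
    · exact hSA h1
    · exact hBA h1

theorem ent_univ (hS : S.Nonempty) : ent S univ = Real.log S.card := by
  have hN : (0 : ℝ) < S.card := by exact_mod_cast hS.card_pos
  have h1 := ent_mul S univ hS
  have h2 : ∀ x ∈ S, Real.log ((S.filter (fun y => pr univ y = pr univ x)).card) = 0 := by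
    intro x hx
    have : S.filter (fun y => pr univ y = pr univ x) = {x} := by
      ext y
      rw [mem_filter, mem_singleton]
      constructor
      · rintro ⟨_, h⟩
        funext i
        exact congrFun h ⟨i, mem_univ i⟩
      · rintro rfl
        exact ⟨hx, rfl⟩
    rw [this]
    simp
  rw [sum_congr rfl h2, sum_const_zero, sub_zero] at h1
  exact mul_left_cancel₀ hN.ne' h1

/-- entropy form of the stability theorem -/
theorem alph_ent (hd : 2 ≤ d) (w : Finset (Fin d) → ℝ) (hw : ∀ g, 0 ≤ w g)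
    (m σ : ℝ) (hσ0 : 0 < σ) (hσm : σ ≤ m)
    (hm : ∀ i : Fin d, m ≤ ∑ g ∈ univ.filter (fun g => i ∈ g), w g)
    (hs : ∀ i j : Fin d, i ≠ j → σ ≤ ∑ g ∈ univ.filter (fun g => i ∈ g ∧ j ∉ g), w g)
    (hS : S.Nonempty) :
    ∃ B : ∀ i, Finset (X i), σ * ((symmDiff S (Fintype.piFinset B)).card : ℝ)
      ≤ C0 * (∑ g, w g * ent S g - m * Real.log S.card) * S.card := by
  obtain ⟨f, hf⟩ := exists_relabel S
  obtain ⟨B', hB'⟩ := real_weights hd w hw m σ hσ0 hσm hm hs (S.image (rel f)) (hS.image _)
  obtain ⟨B, hB⟩ := rel_box f S hf B'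
  refine ⟨B, ?_⟩
  calc σ * ((symmDiff S (Fintype.piFinset B)).card : ℝ)
      ≤ σ * ((symmDiff (S.image (rel f)) (Fintype.piFinset B')).card : ℝ) :=
        mul_le_mul_of_nonneg_left (by exact_mod_cast hB) hσ0.le
    _ ≤ _ := hB'
    _ = _ := by
      rw [hN_univ, rel_card f S hf]
      have : ∀ g ∈ (univ : Finset (Finset (Fin d))), w g * hN (S.image (rel f)) g
          = S.card * (w g * ent S g) := by
        intro g _
        rw [rel_hN f S hf g hS]
        ring
      rw [sum_congr rfl this, ← mul_sum]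
      ring

theorem ent_le (g : Finset (Fin d)) (hS : S.Nonempty) :
    ent S g ≤ Real.log (S.image (pr g)).card := by
  have hN : (0 : ℝ) < S.card := by exact_mod_cast hS.card_pos
  obtain ⟨f, hf⟩ := exists_relabel S
  have h1 := hN_le g (S.image (rel f)) (hS.image _)
  rw [rel_hN f S hf g hS, rel_card f S hf, rel_proj f S hf] at h1
  exact le_of_mul_le_mul_left h1 hN

end

end Pool.Agent.KS6_51.UC
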