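import Mathlib
import Pool.Agent.KS6_51.UC.Alph

/-!
Stability of Shearer's inequality for fractional covers: the cardinality form.
-/

set_option autoImplicit false

namespace Pool.Agent.KS6_51.UC

open Finset

/-- `-2ε ≤ log (1 - ε)` for `0 ≤ ε ≤ 1/2` -/
theorem log_one_sub_ge {ε : ℝ} (hε : 0 ≤ ε) (h : ε < 1 / 2) : -(2 * ε) ≤ Real.log (1 - ε) := by
  have h1e : 0 < 1 - ε := by linarith
  have h1 := Real.one_sub_inv_le_log_of_pos h1e
  have h2 : -(2 * ε) ≤ 1 - (1 - ε)⁻¹ := by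
    rw [le_sub_iff_add_le, ← sub_nonneg]
    have : 1 - (-(2 * ε) + (1 - ε)⁻¹) = ε * (1 - 2 * ε) / (1 - ε) := by
      field_simp
      ring
    rw [this]
    apply div_nonneg _ h1e.le
    apply mul_nonneg hε
    linarith
  linarith

/-- from the multiplicative hypothesis to the logarithmic one -/
theorem log_deficit {ι : Type*} (I : Finset ι) (p w : ι → ℝ) (hp : ∀ g ∈ I, 0 < p g)
    {m ε N : ℝ} (hm : 0 < m) (hε : 0 ≤ ε) (hε2 : ε < 1 / 2) (_hN : 0 < N)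
    (h : (1 - ε) * (∏ g ∈ I, p g ^ w g) ^ (1 / m) ≤ N) :
    ∑ g ∈ I, w g * Real.log (p g) - m * Real.log N ≤ 2 * m * ε := by
  have hprod : (0 : ℝ) < ∏ g ∈ I, p g ^ w g :=
    prod_pos fun g hg => Real.rpow_pos_of_pos (hp g hg) _
  have h1e : 0 < 1 - ε := by linarith
  have h1 := Real.log_le_log (mul_pos h1e (Real.rpow_pos_of_pos hprod _)) h
  rw [Real.log_mul h1e.ne' (Real.rpow_pos_of_pos hprod _).ne', Real.log_rpow hprod,
    Real.log_prod (fun g hg => (Real.rpow_pos_of_pos (hp g hg) _).ne')] at h1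
  have h2 : ∑ g ∈ I, Real.log (p g ^ w g) = ∑ g ∈ I, w g * Real.log (p g) :=
    sum_congr rfl fun g hg => Real.log_rpow (hp g hg) _
  rw [h2] at h1
  have h3 := log_one_sub_ge hε hε2
  have h4 : 1 / m * ∑ g ∈ I, w g * Real.log (p g) ≤ Real.log N + 2 * ε := by linarith
  have h5 := mul_le_mul_of_nonneg_left h4 hm.le
  have h6 : m * (1 / m * ∑ g ∈ I, w g * Real.log (p g)) = ∑ g ∈ I, w g * Real.log (p g) := by
    field_simp
  rw [h6] at h5
  linarith

theorem alph_card {d : ℕ} {X : Fin d → Type*} [∀ i, DecidableEq (X i)]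
    (hd : 2 ≤ d) (w : Finset (Fin d) → ℝ) (hw : ∀ g, 0 ≤ w g)
    (m σ : ℝ) (hσ0 : 0 < σ) (hσm : σ ≤ m)
    (hm : ∀ i : Fin d, m ≤ ∑ g ∈ univ.filter (fun g => i ∈ g), w g)
    (hs : ∀ i j : Fin d, i ≠ j → σ ≤ ∑ g ∈ univ.filter (fun g => i ∈ g ∧ j ∉ g), w g)
    (ε : ℝ) (hε : 0 ≤ ε) (S : Finset (∀ i, X i))
    (hS : (1 - ε) * (∏ g, ((S.image (pr g)).card : ℝ) ^ w g) ^ (1 / m) ≤ S.card) :
    ∃ B : ∀ i, Finset (X i), ((symmDiff S (Fintype.piFinset B)).card : ℝ)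
      ≤ 2 * C0 * (m / σ) * ε * S.card := by
  classical
  have hm0 : 0 < m := lt_of_lt_of_le hσ0 hσm
  have hρ : (1 : ℝ) ≤ m / σ := by rw [le_div_iff₀ hσ0, one_mul]; exact hσm
  have : Nonempty (Fin d) := ⟨⟨0, by omega⟩⟩
  rcases S.eq_empty_or_nonempty with hSe | hSne
  · refine ⟨fun _ => ∅, ?_⟩
    rw [Fintype.piFinset_empty, ← bot_eq_empty, symmDiff_bot, hSe]
    simp
  have hN0 : (0 : ℝ) < S.card := by exact_mod_cast card_pos.mpr hSne
  rcases le_or_gt (1 / 2) ε with hbig | hsmall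
  · refine ⟨fun _ => ∅, ?_⟩
    rw [Fintype.piFinset_empty, ← bot_eq_empty, symmDiff_bot]
    have h0 := one_le_C0
    have h1 : (2 : ℝ) ≤ 2 * C0 * (m / σ) := by nlinarith
    have h2 : (1 : ℝ) ≤ 2 * C0 * (m / σ) * ε := by nlinarith
    calc (S.card : ℝ) = 1 * S.card := (one_mul _).symm
      _ ≤ 2 * C0 * (m / σ) * ε * S.card := mul_le_mul_of_nonneg_right h2 hN0.le
  have hpos : ∀ g ∈ (univ : Finset (Finset (Fin d))), (0 : ℝ) < (S.image (pr g)).card := by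
    intro g _
    exact_mod_cast card_pos.mpr (hSne.image _)
  have hD := log_deficit univ (fun g => ((S.image (pr g)).card : ℝ)) w hpos hm0 hε hsmall hN0 hS
  obtain ⟨B, hB⟩ := alph_ent S hd w hw m σ hσ0 hσm hm hs hSne
  refine ⟨B, ?_⟩
  have h1 : ∑ g, w g * ent S g ≤ ∑ g, w g * Real.log (S.image (pr g)).card :=
    sum_le_sum fun g _ => mul_le_mul_of_nonneg_left (ent_le S g hSne) (hw g)
  have h2 : C0 * (∑ g, w g * ent S g - m * Real.log S.card) * S.card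
      ≤ C0 * (2 * m * ε) * S.card := by
    apply mul_le_mul_of_nonneg_right _ hN0.le
    apply mul_le_mul_of_nonneg_left _ C0_pos.le
    linarith
  have h3 : 2 * C0 * (m / σ) * ε * S.card = (C0 * (2 * m * ε) * S.card) / σ := by
    field_simp
  rw [h3, le_div_iff₀ hσ0, mul_comm]
  exact hB.trans h2

end Pool.Agent.KS6_51.UC
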