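import Mathlib

/-!
Discretising compact sets by cubes.
-/

set_option autoImplicit false

namespace Pool.Agent.KS6_51.UC

open MeasureTheory Set Filter Topology

set_option linter.unusedSectionVars false

variable {ι : Type*} [Fintype ι]

/-- the index of the cube of side `1/N` containing `x` -/
noncomputable def cell (N : ℕ) (x : ι → ℝ) : ι → ℤ := fun i => ⌊(N : ℝ) * x i⌋

theorem measurable_cell (N : ℕ) : Measurable (cell N : (ι → ℝ) → (ι → ℤ)) :=
  measurable_pi_lambda _ fun i =>
    Int.measurable_floor.comp (measurable_const.mul (measurable_pi_apply i))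

theorem cell_fiber {N : ℕ} (hN : 0 < N) (z : ι → ℤ) :
    {x : ι → ℝ | cell N x = z}
      = univ.pi (fun i => Ico ((z i : ℝ) / N) (((z i : ℝ) + 1) / N)) := by
  have hNR : (0 : ℝ) < N := by exact_mod_cast hN
  ext x
  simp only [mem_ofPred_eq, mem_univ_pi, mem_Ico, funext_iff, cell, Int.floor_eq_iff]
  apply forall_congr'
  intro i
  rw [div_le_iff₀ hNR, lt_div_iff₀ hNR, mul_comm (x i)]

theorem volume_fiber {N : ℕ} (hN : 0 < N) (z : ι → ℤ) :
    volume {x : ι → ℝ | cell N x = z} = ENNReal.ofReal ((1 / (N : ℝ)) ^ Fintype.card ι) := by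
  have hNR : (0 : ℝ) < N := by exact_mod_cast hN
  rw [cell_fiber hN, Real.volume_pi_Ico]
  have : ∀ i ∈ (Finset.univ : Finset ι),
      ENNReal.ofReal (((z i : ℝ) + 1) / N - (z i : ℝ) / N) = ENNReal.ofReal (1 / (N : ℝ)) := by
    intro i _
    congr 1
    field_simp
    ring
  rw [Finset.prod_congr rfl this, Finset.prod_const, ENNReal.ofReal_pow (by positivity),
    Finset.card_univ]

/-- the volume of a finite union of cubes -/
theorem volume_cells {N : ℕ} (hN : 0 < N) (T : Finset (ι → ℤ)) :
    volume (cell N ⁻¹' (T : Set (ι → ℤ)) : Set (ι → ℝ))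
      = ENNReal.ofReal ((T.card : ℝ) / (N : ℝ) ^ Fintype.card ι) := by
  have h1 : (cell N ⁻¹' (T : Set (ι → ℤ)) : Set (ι → ℝ))
      = ⋃ z ∈ T, {x : ι → ℝ | cell N x = z} := by
    ext x
    simp
  rw [h1, measure_biUnion_finset]
  · rw [Finset.sum_congr rfl (fun z _ => volume_fiber hN z), Finset.sum_const, nsmul_eq_mul,
      ← ENNReal.ofReal_natCast, ← ENNReal.ofReal_mul (by positivity)]
    congr 1
    rw [one_div, inv_pow, div_eq_mul_inv]
  · intro z _ z' _ hzz'
    rw [Function.onFun, Set.disjoint_left]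
    intro x hx hx'
    exact hzz' (hx.symm.trans hx')
  · intro z _
    exact (measurable_cell N) (measurableSet_singleton z)

theorem finite_cells {K : Set (ι → ℝ)} (hK : IsCompact K) (N : ℕ) : (cell N '' K).Finite := by
  classical
  obtain ⟨R, hR⟩ := hK.isBounded.subset_closedBall 0
  have hsub : cell N '' K ⊆ Set.Icc (fun _ : ι => ⌊-((N : ℝ) * R)⌋) (fun _ : ι => ⌊(N : ℝ) * R⌋) := by
    rintro _ ⟨x, hx, rfl⟩
    have h1 := hR hx
    rw [Metric.mem_closedBall, dist_zero_right] at h1
    have h2 : ∀ i, |x i| ≤ R := fun i => (norm_le_pi_norm x i).trans h1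
    have hN0 : (0 : ℝ) ≤ N := by positivity
    constructor
    · intro i
      apply Int.floor_le_floor
      have := (abs_le.mp (h2 i)).1
      nlinarith
    · intro i
      apply Int.floor_le_floor
      exact mul_le_mul_of_nonneg_left (abs_le.mp (h2 i)).2 hN0
  exact (Set.finite_Icc _ _).subset hsub

theorem subset_cells (K : Set (ι → ℝ)) (N : ℕ) : K ⊆ cell N ⁻¹' (cell N '' K) :=
  subset_preimage_image _ _

theorem cells_subset (K : Set (ι → ℝ)) {N : ℕ} (hN : 0 < N) :
    cell N ⁻¹' (cell N '' K) ⊆ Metric.cthickening (1 / (N : ℝ)) K := by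
  have hNR : (0 : ℝ) < N := by exact_mod_cast hN
  rintro x ⟨y, hy, hyx⟩
  apply Metric.mem_cthickening_of_dist_le x y _ K hy
  rw [dist_pi_le_iff (by positivity)]
  intro i
  have h1 := congrFun hyx i
  have h2 := Int.abs_sub_lt_one_of_floor_eq_floor h1.symm
  rw [← mul_sub, abs_mul, abs_of_pos hNR] at h2
  rw [Real.dist_eq, le_div_iff₀ hNR, mul_comm]
  exact h2.le

/-- the number of cubes of side `1/N` met by `K`, normalised -/
noncomputable def lam (N : ℕ) (K : Set (ι → ℝ)) : ℝ :=
  ((cell N '' K).ncard : ℝ) / (N : ℝ) ^ Fintype.card ι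

theorem volume_lam {K : Set (ι → ℝ)} (hK : IsCompact K) {N : ℕ} (hN : 0 < N) :
    volume (cell N ⁻¹' (cell N '' K) : Set (ι → ℝ)) = ENNReal.ofReal (lam N K) := by
  have h := volume_cells hN (finite_cells hK N).toFinset
  rw [Set.Finite.coe_toFinset, ← Set.ncard_eq_toFinset_card _ (finite_cells hK N)] at h
  exact h

theorem lam_nonneg (N : ℕ) (K : Set (ι → ℝ)) : 0 ≤ lam N K := by
  unfold lam; positivity

theorem tendsto_lam {K : Set (ι → ℝ)} (hK : IsCompact K) :
    Tendsto (fun N : ℕ => lam N K) atTop (𝓝 (volume K).toReal) := by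
  have hfin : volume K ≠ ⊤ := hK.measure_lt_top.ne
  have h1 : Tendsto (fun N : ℕ => volume (cell N ⁻¹' (cell N '' K) : Set (ι → ℝ))) atTop
      (𝓝 (volume K)) := by
    have h2 : Tendsto (fun N : ℕ => volume (Metric.cthickening (1 / (N : ℝ)) K)) atTop
        (𝓝 (volume K)) :=
      (tendsto_measure_cthickening_of_isCompact hK).comp tendsto_one_div_atTop_nhds_zero_nat
    refine tendsto_of_tendsto_of_tendsto_of_le_of_le' tendsto_const_nhds h2 ?_ ?_
    · exact Eventually.of_forall fun N => measure_mono (subset_cells K N)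
    · filter_upwards [eventually_gt_atTop 0] with N hN
      exact measure_mono (cells_subset K hN)
  have h3 := (ENNReal.tendsto_toReal hfin).comp h1
  refine h3.congr' ?_
  filter_upwards [eventually_gt_atTop 0] with N hN
  simp only [Function.comp]
  rw [volume_lam hK hN, ENNReal.toReal_ofReal (lam_nonneg N K)]

theorem volume_le_lam {K : Set (ι → ℝ)} (hK : IsCompact K) {N : ℕ} (hN : 0 < N) :
    volume K ≤ ENNReal.ofReal (lam N K) := by
  rw [← volume_lam hK hN]
  exact measure_mono (subset_cells K N)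

theorem lam_pos {K : Set (ι → ℝ)} (hK : IsCompact K) {N : ℕ} (hN : 0 < N) (h : 0 < volume K) :
    0 < lam N K := by
  have := h.trans_le (volume_le_lam hK hN)
  exact ENNReal.ofReal_pos.mp this

theorem vol_inst {κ : Type*} (i1 i2 : Fintype κ) (A : Set (κ → ℝ))
    (h : @volume _ (@MeasureSpace.pi κ i1 (fun _ => ℝ) _) A = 0) :
    @volume _ (@MeasureSpace.pi κ i2 (fun _ => ℝ) _) A = 0 := by
  rw [Subsingleton.elim i2 i1]
  exact h

/-- a set of positive measure has projections of positive outer measure -/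
theorem volume_proj_pos (s : Finset ι) (S : Set (ι → ℝ)) (h : volume S ≠ 0) :
    volume ((fun (x : ι → ℝ) (i : {i // i ∈ s}) => x i.1) '' S) ≠ 0 := by
  classical
  intro h0
  apply h
  set P := (fun (x : ι → ℝ) (i : {i // i ∈ s}) => x i.1) '' S
  have hmp := volume_preserving_piEquivPiSubtypeProd (fun _ : ι => ℝ) (fun i => i ∈ s)
  have hsub : S ⊆ (MeasurableEquiv.piEquivPiSubtypeProd (fun _ : ι => ℝ) (fun i => i ∈ s)) ⁻¹'
      ((toMeasurable volume P) ×ˢ univ) := by
    intro x hx
    refine ⟨?_, trivial⟩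
    apply subset_toMeasurable volume P
    exact ⟨x, hx, rfl⟩
  have h2 := measure_mono hsub (μ := volume)
  rw [hmp.measure_preimage_equiv, Measure.volume_eq_prod, Measure.prod_prod] at h2
  have h3 := vol_inst _ (Subtype.fintype fun i => i ∈ s) (toMeasurable volume P)
    ((measure_toMeasurable P).trans h0)
  rw [h3, zero_mul] at h2
  exact le_antisymm h2 bot_le

end Pool.Agent.KS6_51.UC
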