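import Mathlib
import Pool.Agent.KS6_51.UC.Card
import Pool.Agent.KS6_51.UC.Leb1

/-!
Stability of the uniform cover inequality for sets of finite Lebesgue measure.
-/

set_option autoImplicit false
set_option linter.unusedSectionVars false

namespace Pool.Agent.KS6_51.UC

open MeasureTheory Set Filter Topology

/-- the union of the cubes with index in a box is a box -/
theorem cell_box {d : ℕ} (N : ℕ) (B : Fin d → Finset ℤ) :
    (cell N ⁻¹' ((Fintype.piFinset B : Finset (Fin d → ℤ)) : Set (Fin d → ℤ)) : Set (Fin d → ℝ))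
      = univ.pi (fun i => {t : ℝ | ⌊(N : ℝ) * t⌋ ∈ B i}) := by
  ext x
  simp [cell]

theorem measurable_side (N : ℕ) (B : Finset ℤ) : MeasurableSet {t : ℝ | ⌊(N : ℝ) * t⌋ ∈ B} := by
  have h : Measurable (fun t : ℝ => ⌊(N : ℝ) * t⌋) :=
    Int.measurable_floor.comp (measurable_const.mul measurable_id)
  exact h (B.measurableSet)

/-- the number of cubes met by a projection -/
theorem ncard_proj {d : ℕ} {K : Set (Fin d → ℝ)} (hK : IsCompact K) (N : ℕ)
    (g : Finset (Fin d)) :
    (((finite_cells hK N).toFinset).image (pr g)).card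
      = (cell N '' (pr g '' K)).ncard := by
  classical
  have h1 : ((((finite_cells hK N).toFinset).image (pr g) :
      Finset (∀ i : {i // i ∈ g}, (fun _ : Fin d => ℤ) i.1)) : Set _)
      = cell N '' (pr g '' K) := by
    rw [Finset.coe_image, Set.Finite.coe_toFinset, image_image, image_image]
    rfl
  rw [← h1, Set.ncard_coe_finset]

/-- the estimate at scale `1/N` -/
theorem scale_bound {d : ℕ} (hd : 2 ≤ d) (w : Finset (Fin d) → ℝ) (hw : ∀ g, 0 ≤ w g)
    (m σ : ℝ) (hσ0 : 0 < σ) (hσm : σ ≤ m)
    (hm : ∀ i : Fin d, ∑ g ∈ Finset.univ.filter (fun g => i ∈ g), w g = m)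
    (hs : ∀ i j : Fin d, i ≠ j →
      σ ≤ ∑ g ∈ Finset.univ.filter (fun g => i ∈ g ∧ j ∉ g), w g)
    {K : Set (Fin d → ℝ)} (hK : IsCompact K) (hK0 : 0 < volume K) {N : ℕ} (hN : 0 < N) :
    0 ≤ C0 / σ * (∑ g, w g * Real.log (lam N (pr g '' K)) - m * Real.log (lam N K)) * lam N K ∧
    ∃ B : Fin d → Set ℝ, (∀ i, MeasurableSet (B i)) ∧
      volume (symmDiff K (univ.pi B)) ≤ ENNReal.ofReal ((lam N K - (volume K).toReal)
        + C0 / σ * (∑ g, w g * Real.log (lam N (pr g '' K)) - m * Real.log (lam N K)) * lam N K) := by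
  classical
  have hNR : (0 : ℝ) < N := by exact_mod_cast hN
  have hKne : K.Nonempty := by
    rw [Set.nonempty_iff_ne_empty]
    rintro rfl
    simp at hK0
  set T : Finset (Fin d → ℤ) := (finite_cells hK N).toFinset with hT
  have hTne : T.Nonempty := by
    obtain ⟨x, hx⟩ := hKne
    exact ⟨cell N x, by rw [hT, Set.Finite.mem_toFinset]; exact mem_image_of_mem _ hx⟩
  obtain ⟨B, hB⟩ := alph_ent T hd w hw m σ hσ0 hσm (fun i => (hm i).ge) hs hTne
  have hTcoe : (T : Set (Fin d → ℤ)) = cell N '' K := by rw [hT, Set.Finite.coe_toFinset]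
  have hTcard : (T.card : ℝ) / (N : ℝ) ^ d = lam N K := by
    unfold lam
    rw [Fintype.card_fin, ← hTcoe, Set.ncard_coe_finset]
  have hproj : ∀ g : Finset (Fin d), ((T.image (pr g)).card : ℝ)
      = lam N (pr g '' K) * (N : ℝ) ^ g.card := by
    intro g
    rw [hT, ncard_proj hK N g]
    unfold lam
    rw [Fintype.card_coe]
    field_simp
  -- the logarithmic quantity
  have hcompg : ∀ g : Finset (Fin d), IsCompact (pr g '' K) := by
    intro g
    apply hK.image
    exact continuous_pi fun i => continuous_apply i.1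
  have hlampos : ∀ g : Finset (Fin d), 0 < lam N (pr g '' K) := by
    intro g
    have h1 : volume (pr g '' K) ≠ 0 := volume_proj_pos g K hK0.ne'
    exact lam_pos (hcompg g) hN (pos_iff_ne_zero.mpr h1)
  have hlamK : 0 < lam N K := lam_pos hK hN hK0
  have hT0 : (0 : ℝ) < T.card := by exact_mod_cast hTne.card_pos
  have hw2 : ∑ g, w g * (g.card : ℝ) = m * d := by
    have h1 : ∀ g ∈ (Finset.univ : Finset (Finset (Fin d))), w g * (g.card : ℝ)
        = ∑ i : Fin d, if i ∈ g then w g else 0 := by
      intro g _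
      rw [← Finset.sum_filter, Finset.sum_const, nsmul_eq_mul, mul_comm]
      congr 2
      simp
    rw [Finset.sum_congr rfl h1, Finset.sum_comm]
    have h2 : ∀ i ∈ (Finset.univ : Finset (Fin d)), (∑ g : Finset (Fin d), if i ∈ g then w g else 0)
        = m := by
      intro i _
      rw [← Finset.sum_filter]
      exact hm i
    rw [Finset.sum_congr rfl h2, Finset.sum_const, nsmul_eq_mul, mul_comm, Finset.card_univ,
      Fintype.card_fin]
  have hlog : ∑ g, w g * ent T g - m * Real.log T.card
      ≤ ∑ g, w g * Real.log (lam N (pr g '' K)) - m * Real.log (lam N K) := by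
    have h1 : ∑ g, w g * ent T g ≤ ∑ g, w g * Real.log (T.image (pr g)).card :=
      Finset.sum_le_sum fun g _ => mul_le_mul_of_nonneg_left (ent_le T g hTne) (hw g)
    have h2 : ∀ g ∈ (Finset.univ : Finset (Finset (Fin d))),
        w g * Real.log (T.image (pr g)).card
        = w g * Real.log (lam N (pr g '' K)) + (w g * (g.card : ℝ)) * Real.log N := by
      intro g _
      rw [hproj g, Real.log_mul (hlampos g).ne' (by positivity), Real.log_pow]
      ring
    have h3 : Real.log T.card = Real.log (lam N K) + d * Real.log N := by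
      have : (T.card : ℝ) = lam N K * (N : ℝ) ^ d := by
        rw [← hTcard]
        field_simp
      rw [this, Real.log_mul hlamK.ne' (by positivity), Real.log_pow]
    rw [Finset.sum_congr rfl h2, Finset.sum_add_distrib, ← Finset.sum_mul, hw2] at h1
    rw [h3]
    linarith
  -- the two parts of the symmetric difference
  have hpart2 : volume (symmDiff (cell N ⁻¹' (cell N '' K) : Set (Fin d → ℝ))
      (univ.pi (fun i => {t : ℝ | ⌊(N : ℝ) * t⌋ ∈ B i})))
      ≤ ENNReal.ofReal (C0 / σ * (∑ g, w g * Real.log (lam N (pr g '' K))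
        - m * Real.log (lam N K)) * lam N K) := by
    have h1 : symmDiff (cell N ⁻¹' (cell N '' K) : Set (Fin d → ℝ))
        (univ.pi (fun i => {t : ℝ | ⌊(N : ℝ) * t⌋ ∈ B i}))
        = cell N ⁻¹' ((symmDiff T (Fintype.piFinset B) : Finset (Fin d → ℤ)) : Set (Fin d → ℤ)) := by
      rw [← cell_box, Finset.coe_symmDiff, hTcoe]
      rfl
    rw [h1, volume_cells hN, Fintype.card_fin]
    apply ENNReal.ofReal_le_ofReal
    have h2 : ((symmDiff T (Fintype.piFinset B)).card : ℝ)
        ≤ C0 / σ * (∑ g, w g * ent T g - m * Real.log T.card) * T.card := by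
      have : C0 / σ * (∑ g, w g * ent T g - m * Real.log T.card) * T.card
          = (C0 * (∑ g, w g * ent T g - m * Real.log T.card) * T.card) / σ := by ring
      rw [this, le_div_iff₀ hσ0, mul_comm]
      exact hB
    calc ((symmDiff T (Fintype.piFinset B)).card : ℝ) / (N : ℝ) ^ d
        ≤ (C0 / σ * (∑ g, w g * ent T g - m * Real.log T.card) * T.card) / (N : ℝ) ^ d :=
          div_le_div_of_nonneg_right h2 (by positivity)
      _ = C0 / σ * (∑ g, w g * ent T g - m * Real.log T.card) * lam N K := by
          rw [← hTcard]; ring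
      _ ≤ _ := by
          apply mul_le_mul_of_nonneg_right _ hlamK.le
          exact mul_le_mul_of_nonneg_left hlog (div_nonneg C0_pos.le hσ0.le)
  have hpart1 : volume (symmDiff K (cell N ⁻¹' (cell N '' K) : Set (Fin d → ℝ)))
      ≤ ENNReal.ofReal (lam N K - (volume K).toReal) := by
    have hsub := subset_cells K N
    have h1 : symmDiff K (cell N ⁻¹' (cell N '' K) : Set (Fin d → ℝ))
        = (cell N ⁻¹' (cell N '' K) : Set (Fin d → ℝ)) \ K := by
      rw [Set.symmDiff_def, Set.sdiff_eq_empty.mpr hsub, empty_union]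
    rw [h1, measure_sdiff hsub hK.measurableSet.nullMeasurableSet hK.measure_lt_top.ne,
      volume_lam hK hN, ENNReal.ofReal_sub _ ENNReal.toReal_nonneg,
      ENNReal.ofReal_toReal hK.measure_lt_top.ne]
  have hnn2 : 0 ≤ C0 / σ * (∑ g, w g * Real.log (lam N (pr g '' K))
        - m * Real.log (lam N K)) * lam N K := by
    have h2 : (0 : ℝ) ≤ ((symmDiff T (Fintype.piFinset B)).card : ℝ) := by positivity
    have h3 : 0 ≤ C0 * (∑ g, w g * ent T g - m * Real.log T.card) * T.card :=
      (mul_nonneg hσ0.le h2).trans hB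
    have h4 : 0 ≤ C0 * (∑ g, w g * ent T g - m * Real.log T.card) := by
      by_contra hcon
      push Not at hcon
      have := mul_neg_of_neg_of_pos hcon hT0
      linarith
    have h5 : 0 ≤ (∑ g, w g * ent T g - m * Real.log T.card) := by
      by_contra hcon
      push Not at hcon
      have := mul_neg_of_pos_of_neg C0_pos hcon
      linarith
    have h6 := h5.trans hlog
    have := C0_pos
    positivity
  have hnn1 : 0 ≤ lam N K - (volume K).toReal := by
    have := volume_le_lam hK hN
    have h1 := ENNReal.toReal_mono ENNReal.ofReal_ne_top this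
    rw [ENNReal.toReal_ofReal (lam_nonneg N K)] at h1
    linarith
  refine ⟨hnn2, fun i => {t : ℝ | ⌊(N : ℝ) * t⌋ ∈ B i}, fun i => measurable_side N (B i), ?_⟩
  rw [ENNReal.ofReal_add hnn1 hnn2]
  exact (measure_symmDiff_le _ _ _).trans (add_le_add hpart1 hpart2)

end Pool.Agent.KS6_51.UC
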