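import Mathlib
import Pool.Agent.KS6_51.UC.Leb2

/-!
Stability of the uniform cover inequality for sets of finite Lebesgue measure: the limits.
-/

set_option autoImplicit false
set_option linter.unusedSectionVars false

namespace Pool.Agent.KS6_51.UC

open MeasureTheory Set Filter Topology

section
variable {d : ℕ} (hd : 2 ≤ d) (w : Finset (Fin d) → ℝ) (hw : ∀ g, 0 ≤ w g)
    (m σ : ℝ) (hσ0 : 0 < σ) (hσm : σ ≤ m)
    (hm : ∀ i : Fin d, ∑ g ∈ Finset.univ.filter (fun g => i ∈ g), w g = m)
    (hs : ∀ i j : Fin d, i ≠ j →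
      σ ≤ ∑ g ∈ Finset.univ.filter (fun g => i ∈ g ∧ j ∉ g), w g)
include hd hw hσ0 hσm hm hs

/-- compact sets of positive measure -/
theorem compact_bound {K : Set (Fin d → ℝ)} (hK : IsCompact K) (hK0 : 0 < volume K) :
    0 ≤ C0 / σ * (∑ g, w g * Real.log (volume (pr g '' K)).toReal
        - m * Real.log (volume K).toReal) * (volume K).toReal ∧
    ∀ η : ℝ, 0 < η → ∃ B : Fin d → Set ℝ, (∀ i, MeasurableSet (B i)) ∧
      volume (symmDiff K (univ.pi B)) ≤ ENNReal.ofReal (
        C0 / σ * (∑ g, w g * Real.log (volume (pr g '' K)).toReal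
        - m * Real.log (volume K).toReal) * (volume K).toReal + η) := by
  have hcompg : ∀ g : Finset (Fin d), IsCompact (pr g '' K) := by
    intro g
    apply hK.image
    exact continuous_pi fun i => continuous_apply i.1
  have hv : (volume K).toReal ≠ 0 :=
    (ENNReal.toReal_pos hK0.ne' hK.measure_lt_top.ne).ne'
  have hvg : ∀ g : Finset (Fin d), (volume (pr g '' K)).toReal ≠ 0 := by
    intro g
    have h1 : volume (pr g '' K) ≠ 0 := volume_proj_pos g K hK0.ne'
    exact (ENNReal.toReal_pos h1 (hcompg g).measure_lt_top.ne).ne'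
  have t1 : Tendsto (fun N : ℕ => lam N K) atTop (𝓝 (volume K).toReal) := tendsto_lam hK
  have t2 : Tendsto (fun N : ℕ => ∑ g, w g * Real.log (lam N (pr g '' K))) atTop
      (𝓝 (∑ g, w g * Real.log (volume (pr g '' K)).toReal)) := by
    apply tendsto_finsetSum
    intro g _
    exact ((tendsto_lam (hcompg g)).log (hvg g)).const_mul _
  have t3 : Tendsto (fun N : ℕ => C0 / σ * (∑ g, w g * Real.log (lam N (pr g '' K))
      - m * Real.log (lam N K)) * lam N K) atTop
      (𝓝 (C0 / σ * (∑ g, w g * Real.log (volume (pr g '' K)).toReal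
        - m * Real.log (volume K).toReal) * (volume K).toReal)) :=
    ((t2.sub ((t1.log hv).const_mul m)).const_mul _).mul t1
  have t4 : Tendsto (fun N : ℕ => (lam N K - (volume K).toReal)
      + C0 / σ * (∑ g, w g * Real.log (lam N (pr g '' K))
      - m * Real.log (lam N K)) * lam N K) atTop
      (𝓝 (((volume K).toReal - (volume K).toReal)
        + C0 / σ * (∑ g, w g * Real.log (volume (pr g '' K)).toReal
        - m * Real.log (volume K).toReal) * (volume K).toReal)) :=
    (t1.sub_const _).add t3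
  refine ⟨?_, ?_⟩
  · apply ge_of_tendsto t3
    filter_upwards [eventually_gt_atTop 0] with N hN
    exact (scale_bound hd w hw m σ hσ0 hσm hm hs hK hK0 hN).1
  · intro η hη
    rw [sub_self, zero_add] at t4
    have h1 := (tendsto_order.mp t4).2 _ (lt_add_of_pos_right _ hη)
    obtain ⟨N, hN1, hN0⟩ := (h1.and (eventually_gt_atTop 0)).exists
    obtain ⟨_, B, hB1, hB2⟩ := scale_bound hd w hw m σ hσ0 hσm hm hs hK hK0 hN0
    exact ⟨B, hB1, hB2.trans (ENNReal.ofReal_le_ofReal hN1.le)⟩

/-- Lebesgue measurable sets of positive finite measure, with a small error -/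
theorem set_bound {S : Set (Fin d → ℝ)} (hS : NullMeasurableSet S) (hfin : volume S ≠ ⊤)
    (hS0 : volume S ≠ 0) (L : ℝ)
    (hL : ∀ K ⊆ S, IsCompact K → 0 < volume K →
      ∑ g, w g * Real.log (volume (pr g '' K)).toReal ≤ L) (η : ℝ) (hη : 0 < η) :
    ∃ B : Fin d → Set ℝ, (∀ i, MeasurableSet (B i)) ∧
      volume (symmDiff S (univ.pi B)) ≤ ENNReal.ofReal (
        C0 / σ * (L - m * Real.log (volume S).toReal) * (volume S).toReal + η) := by
  obtain ⟨t, htS, htm, hta⟩ := hS.exists_measurable_subset_ae_eq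
  have hvt : volume t = volume S := measure_congr hta
  set v : ℝ := (volume S).toReal with hv
  have hv0 : 0 < v := ENNReal.toReal_pos hS0 hfin
  have hvS : volume S = ENNReal.ofReal v := (ENNReal.ofReal_toReal hfin).symm
  have hcont : ContinuousAt (fun x : ℝ => (v - x) + C0 / σ * (L - m * Real.log x) * x) v := by
    have := Real.continuousAt_log hv0.ne'
    fun_prop
  have h0 : (v - v) + C0 / σ * (L - m * Real.log v) * v < C0 / σ * (L - m * Real.log v) * v + η / 2 := by
    linarith
  have h1 := hcont.eventually_lt continuousAt_const h0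
  obtain ⟨δ, hδ, hδ'⟩ := Metric.eventually_nhds_iff.mp h1
  have hmin : 0 < min δ v := lt_min hδ hv0
  obtain ⟨K, hKt, hK, hKlt⟩ := htm.exists_isCompact_lt_add (μ := volume) (by rw [hvt]; exact hfin)
    (ε := ENNReal.ofReal (min δ v)) (ENNReal.ofReal_pos.mpr hmin).ne'
  have hKfin : volume K ≠ ⊤ := hK.measure_lt_top.ne
  set x : ℝ := (volume K).toReal with hx
  have hKx : volume K = ENNReal.ofReal x := (ENNReal.ofReal_toReal hKfin).symm
  have hx0 : 0 ≤ x := ENNReal.toReal_nonneg
  rw [hvt, hvS, hKx, ← ENNReal.ofReal_add hx0 hmin.le,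
    ENNReal.ofReal_lt_ofReal_iff (by positivity)] at hKlt
  have hxpos : 0 < x := by
    have := min_le_right δ v
    linarith
  have hxv : x ≤ v := by
    apply ENNReal.toReal_mono hfin
    exact measure_mono (hKt.trans htS)
  have hxδ : dist x v < δ := by
    rw [Real.dist_eq, abs_lt]
    have := min_le_left δ v
    constructor <;> linarith
  have hK0 : 0 < volume K := by rw [hKx]; exact ENNReal.ofReal_pos.mpr hxpos
  obtain ⟨hnn, hex⟩ := compact_bound hd w hw m σ hσ0 hσm hm hs hK hK0
  obtain ⟨B, hB1, hB2⟩ := hex (η / 2) (by positivity)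
  refine ⟨B, hB1, ?_⟩
  have hSK : volume (symmDiff S K) ≤ ENNReal.ofReal (v - x) := by
    have hsub : K ⊆ S := hKt.trans htS
    have h2 : symmDiff S K = S \ K := by
      rw [Set.symmDiff_def, Set.sdiff_eq_empty.mpr hsub, union_empty]
    rw [h2, measure_sdiff hsub hK.measurableSet.nullMeasurableSet hKfin, hvS, hKx,
      ENNReal.ofReal_sub _ hx0]
  have hLK := hL K (hKt.trans htS) hK hK0
  have hCσ : 0 ≤ C0 / σ := div_nonneg C0_pos.le hσ0.le
  calc volume (symmDiff S (univ.pi B)) ≤ volume (symmDiff S K) + volume (symmDiff K (univ.pi B)) :=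
        measure_symmDiff_le _ _ _
    _ ≤ ENNReal.ofReal (v - x) + ENNReal.ofReal (
        C0 / σ * (∑ g, w g * Real.log (volume (pr g '' K)).toReal
        - m * Real.log (volume K).toReal) * (volume K).toReal + η / 2) := add_le_add hSK hB2
    _ = ENNReal.ofReal ((v - x) + (
        C0 / σ * (∑ g, w g * Real.log (volume (pr g '' K)).toReal
        - m * Real.log (volume K).toReal) * (volume K).toReal + η / 2)) := by
        exact (ENNReal.ofReal_add (by linarith) (add_nonneg hnn (by positivity))).symm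
    _ ≤ _ := by
        apply ENNReal.ofReal_le_ofReal
        have h3 := hδ' hxδ
        have h4 : C0 / σ * (∑ g, w g * Real.log (volume (pr g '' K)).toReal
            - m * Real.log (volume K).toReal) * (volume K).toReal
            ≤ C0 / σ * (L - m * Real.log x) * x := by
          rw [← hx]
          apply mul_le_mul_of_nonneg_right _ hx0
          apply mul_le_mul_of_nonneg_left _ hCσ
          linarith
        linarith

end

/-- a limit of boxes is a box -/
theorem box_limit {d : ℕ} (S : Set (Fin d → ℝ))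
    (h : ∀ η : ℝ, 0 < η → ∃ B : Fin d → Set ℝ, (∀ i, MeasurableSet (B i)) ∧
      volume (symmDiff S (univ.pi B)) ≤ ENNReal.ofReal η) :
    ∃ B : Fin d → Set ℝ, (∀ i, MeasurableSet (B i)) ∧ volume (symmDiff S (univ.pi B)) = 0 := by
  choose! B hB1 hB2 using h
  set A : ℕ → Fin d → Set ℝ := fun n => B ((1 / 2 : ℝ) ^ n) with hA
  have hA1 : ∀ n i, MeasurableSet (A n i) := fun n i => hB1 _ (by positivity) i
  have hA2 : ∀ n, volume (symmDiff S (univ.pi (A n))) ≤ ENNReal.ofReal ((1 / 2 : ℝ) ^ n) :=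
    fun n => hB2 _ (by positivity)
  refine ⟨fun i => ⋃ n : ℕ, ⋂ k : ℕ, A (n + k) i, fun i => ?_, ?_⟩
  · exact MeasurableSet.iUnion fun n => MeasurableSet.iInter fun k => hA1 _ i
  have hsum : ∑' n, volume (symmDiff S (univ.pi (A n))) ≠ ⊤ := by
    have h1 : ∑' n, volume (symmDiff S (univ.pi (A n))) ≤ ∑' n : ℕ, ENNReal.ofReal ((1 / 2 : ℝ) ^ n) :=
      ENNReal.tsum_le_tsum hA2
    have h2 : ∑' n : ℕ, ENNReal.ofReal ((1 / 2 : ℝ) ^ n) = ENNReal.ofReal (∑' n : ℕ, (1 / 2 : ℝ) ^ n) :=
      (ENNReal.ofReal_tsum_of_nonneg (fun n => by positivity)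
        (summable_geometric_of_lt_one (by norm_num) (by norm_num))).symm
    rw [h2] at h1
    exact (h1.trans_lt ENNReal.ofReal_lt_top).ne
  have hae := ae_eventually_notMem hsum
  have hmem : ∀ x : Fin d → ℝ, x ∈ (univ.pi fun i => ⋃ n : ℕ, ⋂ k : ℕ, A (n + k) i)
      ↔ ∀ᶠ n in atTop, x ∈ univ.pi (A n) := by
    intro x
    constructor
    · intro hx
      have h1 : ∀ i, ∀ᶠ n in atTop, x i ∈ A n i := by
        intro i
        have h2 := hx i (mem_univ i)
        rw [mem_iUnion] at h2
        obtain ⟨n, hn⟩ := h2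
        rw [mem_iInter] at hn
        filter_upwards [eventually_ge_atTop n] with k hk
        have := hn (k - n)
        rwa [Nat.add_sub_cancel' hk] at this
      have h3 := eventually_all.mpr h1
      filter_upwards [h3] with n hn i _
      exact hn i
    · intro hx i _
      obtain ⟨n, hn⟩ := eventually_atTop.mp hx
      rw [mem_iUnion]
      refine ⟨n, ?_⟩
      rw [mem_iInter]
      intro k
      exact hn (n + k) (Nat.le_add_right _ _) i (mem_univ i)
  rw [measure_eq_zero_iff_ae_notMem]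
  filter_upwards [hae] with x hx
  rw [Set.mem_symmDiff, hmem x]
  rintro (⟨h1, h2⟩ | ⟨h1, h2⟩)
  · apply h2
    filter_upwards [hx] with n hn
    by_contra h3
    exact hn (Or.inl ⟨h1, h3⟩)
  · obtain ⟨n, hn1, hn2⟩ := (h1.and hx).exists
    exact hn2 (Or.inr ⟨hn1, h2⟩)

/-- stability of the uniform cover inequality for Lebesgue measurable sets of finite measure -/
theorem leb {d : ℕ} (hd : 2 ≤ d) (w : Finset (Fin d) → ℝ) (hw : ∀ g, 0 ≤ w g)
    (m σ : ℝ) (hσ0 : 0 < σ)
    (hm : ∀ i : Fin d, ∑ g ∈ Finset.univ.filter (fun g => i ∈ g), w g = m)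
    (hs : ∀ i j : Fin d, i ≠ j →
      σ ≤ ∑ g ∈ Finset.univ.filter (fun g => i ∈ g ∧ j ∉ g), w g)
    (ε : ℝ) (hε : 0 ≤ ε) (S : Set (Fin d → ℝ)) (hS : NullMeasurableSet S) (hfin : volume S ≠ ⊤)
    (h : ENNReal.ofReal (1 - ε) * (∏ g : Finset (Fin d), volume (pr g '' S) ^ w g) ^ (1 / m)
      ≤ volume S) :
    ∃ B : Fin d → Set ℝ, (∀ i, MeasurableSet (B i)) ∧
      volume (symmDiff S (univ.pi B)) ≤ ENNReal.ofReal (4 * C0 * (m / σ) * ε) * volume S := by
  classical
  -- `σ ≤ m`
  have hσm : σ ≤ m := by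
    have h01 : (⟨0, by omega⟩ : Fin d) ≠ ⟨1, by omega⟩ := by
      intro h
      simp [Fin.ext_iff] at h
    rw [← hm ⟨0, by omega⟩]
    refine (hs _ _ h01).trans ?_
    apply Finset.sum_le_sum_of_subset_of_nonneg
    · intro g hg
      rw [Finset.mem_filter] at hg ⊢
      exact ⟨hg.1, hg.2.1⟩
    · intro g _ _
      exact hw g
  have hm0 : 0 < m := lt_of_lt_of_le hσ0 hσm
  have hρ : (1 : ℝ) ≤ m / σ := by rw [le_div_iff₀ hσ0, one_mul]; exact hσm
  have hne : Nonempty (Fin d) := ⟨⟨0, by omega⟩⟩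
  have hempty : (univ.pi fun _ : Fin d => (∅ : Set ℝ)) = ∅ := by
    rw [Set.univ_pi_eq_empty_iff]
    exact ⟨⟨0, by omega⟩, rfl⟩
  have hsd : symmDiff S (univ.pi fun _ : Fin d => (∅ : Set ℝ)) = S := by
    rw [hempty, ← Set.bot_eq_empty, symmDiff_bot]
  by_cases hS0 : volume S = 0
  · refine ⟨fun _ => ∅, fun _ => MeasurableSet.empty, ?_⟩
    rw [hsd, hS0, mul_zero]
  rcases le_or_gt (1 / 2) ε with hbig | hsmall
  · refine ⟨fun _ => ∅, fun _ => MeasurableSet.empty, ?_⟩
    rw [hsd]
    have h0 := one_le_C0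
    have h1 : (4 : ℝ) ≤ 4 * C0 * (m / σ) := by nlinarith
    have h2 : (1 : ℝ) ≤ 4 * C0 * (m / σ) * ε := by nlinarith
    calc volume S = 1 * volume S := (one_mul _).symm
      _ ≤ ENNReal.ofReal (4 * C0 * (m / σ) * ε) * volume S := by
        gcongr
        exact ENNReal.one_le_ofReal.mpr h2
  -- finiteness of the projections
  have h1e : 0 < 1 - ε := by linarith
  set P : ENNReal := ∏ g : Finset (Fin d), volume (pr g '' S) ^ w g with hP
  have hPtop : P ≠ ⊤ := by
    intro hcon
    rw [hcon, ENNReal.top_rpow_of_pos (by positivity),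
      ENNReal.mul_top (ENNReal.ofReal_pos.mpr h1e).ne'] at h
    exact hfin (top_le_iff.mp h)
  have hgpos : ∀ g : Finset (Fin d), volume (pr g '' S) ≠ 0 := fun g => volume_proj_pos g S hS0
  have hfac : ∀ g : Finset (Fin d), volume (pr g '' S) ^ w g ≠ 0 := by
    intro g hcon
    rw [ENNReal.rpow_eq_zero_iff] at hcon
    rcases hcon with ⟨h1, _⟩ | ⟨_, h1⟩
    · exact hgpos g h1
    · exact absurd h1 (not_lt.mpr (hw g))
  have hfactop : ∀ g : Finset (Fin d), volume (pr g '' S) ^ w g ≠ ⊤ := by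
    intro g hcon
    apply hPtop
    rw [hP, ← Finset.mul_prod_erase Finset.univ _ (Finset.mem_univ g), hcon]
    exact ENNReal.top_mul (Finset.prod_ne_zero_iff.mpr fun g' _ => hfac g')
  have hgtop : ∀ g : Finset (Fin d), w g ≠ 0 → volume (pr g '' S) ≠ ⊤ := by
    intro g hg hcon
    apply hfactop g
    rw [hcon]
    exact ENNReal.top_rpow_of_pos (lt_of_le_of_ne (hw g) (Ne.symm hg))
  set v : ℝ := (volume S).toReal with hv
  have hv0 : 0 < v := ENNReal.toReal_pos hS0 hfin
  have hvS : volume S = ENNReal.ofReal v := (ENNReal.ofReal_toReal hfin).symm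
  set p : Finset (Fin d) → ℝ := fun g => if w g = 0 then 1 else (volume (pr g '' S)).toReal with hp
  have hppos : ∀ g ∈ (Finset.univ : Finset (Finset (Fin d))), 0 < p g := by
    intro g _
    simp only [hp]
    split_ifs with h1
    · norm_num
    · exact ENNReal.toReal_pos (hgpos g) (hgtop g h1)
  have hprod : P.toReal = ∏ g, p g ^ w g := by
    rw [hP, ENNReal.toReal_prod]
    apply Finset.prod_congr rfl
    intro g _
    rw [← ENNReal.toReal_rpow]
    simp only [hp]
    split_ifs with h1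
    · rw [h1, Real.rpow_zero, Real.rpow_zero]
    · rfl
  have hreal : (1 - ε) * (∏ g, p g ^ w g) ^ (1 / m) ≤ v := by
    have h1 := ENNReal.toReal_mono hfin h
    rw [ENNReal.toReal_mul, ENNReal.toReal_ofReal h1e.le, ← ENNReal.toReal_rpow, hprod] at h1
    exact h1
  have hD := log_deficit Finset.univ p w hppos hm0 hε hsmall hv0 hreal
  set L : ℝ := ∑ g, w g * Real.log (p g) with hLdef
  have hL : ∀ K ⊆ S, IsCompact K → 0 < volume K →
      ∑ g, w g * Real.log (volume (pr g '' K)).toReal ≤ L := by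
    intro K hKS _ hK0
    apply Finset.sum_le_sum
    intro g _
    by_cases h1 : w g = 0
    · rw [h1, zero_mul, zero_mul]
    · apply mul_le_mul_of_nonneg_left _ (hw g)
      simp only [hp, h1, if_false]
      have h2 : volume (pr g '' K) ≤ volume (pr g '' S) := measure_mono (image_mono hKS)
      apply Real.log_le_log
      · exact ENNReal.toReal_pos (volume_proj_pos g K hK0.ne')
          (h2.trans_lt (lt_top_iff_ne_top.mpr (hgtop g h1))).ne
      · exact ENNReal.toReal_mono (hgtop g h1) h2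
  set a : ℝ := 2 * C0 * (m / σ) * ε * v with ha
  have hapx : ∀ η : ℝ, 0 < η → ∃ B : Fin d → Set ℝ, (∀ i, MeasurableSet (B i)) ∧
      volume (symmDiff S (univ.pi B)) ≤ ENNReal.ofReal (a + η) := by
    intro η hη
    obtain ⟨B, hB1, hB2⟩ := set_bound hd w hw m σ hσ0 hσm hm hs hS hfin hS0 L hL η hη
    refine ⟨B, hB1, hB2.trans (ENNReal.ofReal_le_ofReal ?_)⟩
    have h1 : C0 / σ * (L - m * Real.log (volume S).toReal) * (volume S).toReal
        ≤ C0 / σ * (2 * m * ε) * v := by
      apply mul_le_mul_of_nonneg_right _ hv0.le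
      apply mul_le_mul_of_nonneg_left _ (div_nonneg C0_pos.le hσ0.le)
      linarith
    have h2 : C0 / σ * (2 * m * ε) * v = a := by
      rw [ha]; ring
    linarith
  rcases hε.eq_or_lt with h0 | h0
  · have ha0 : a = 0 := by rw [ha, ← h0]; ring
    rw [ha0] at hapx
    obtain ⟨B, hB1, hB2⟩ := box_limit S (fun η hη => by
      obtain ⟨B, hB1, hB2⟩ := hapx η hη
      rw [zero_add] at hB2
      exact ⟨B, hB1, hB2⟩)
    refine ⟨B, hB1, ?_⟩
    rw [hB2]
    exact bot_le
  · have hC := C0_pos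
    have ha0 : 0 < a := by rw [ha]; positivity
    obtain ⟨B, hB1, hB2⟩ := hapx a ha0
    refine ⟨B, hB1, hB2.trans (le_of_eq ?_)⟩
    rw [hvS, ← ENNReal.ofReal_mul (by positivity)]
    congr 1
    rw [ha]
    ring

end Pool.Agent.KS6_51.UC
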