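import Mathlib
import Pool.Agent.KS6_51.UC.Card

/-!
Sharpness of the stability bound for every uniform fractional cover.
-/

set_option autoImplicit false

namespace Pool.Agent.KS6_51.UC

open Finset

section
variable {d : ℕ} (i j : Fin d)

/-- the point with coordinates `u`, `v` at `i`, `j` and `0` elsewhere -/
def Pt (u v : ℤ) : Fin d → ℤ := fun k => if k = i then u else if k = j then v else 0

/-- a square with a corner removed -/
def Sq (N a : ℕ) : Finset (Fin d → ℤ) :=
  ((range N ×ˢ range N).filter (fun p => ¬ (p.1 < a ∧ p.2 < a))).image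
    (fun p => Pt i j (p.1 : ℤ) (p.2 : ℤ))

variable {i j}

theorem Pt_i (u v : ℤ) : Pt i j u v i = u := by simp [Pt]

theorem Pt_j (hij : i ≠ j) (u v : ℤ) : Pt i j u v j = v := by simp [Pt, hij.symm]

theorem card_Sq (hij : i ≠ j) {N a : ℕ} (ha : a ≤ N) : (Sq i j N a).card + a * a = N * N := by
  have hinj : Function.Injective (fun p : ℕ × ℕ => Pt i j (p.1 : ℤ) (p.2 : ℤ)) := by
    intro p q h
    have h1 := congrFun h i
    have h2 := congrFun h j
    simp only [Pt_i, Pt_j hij] at h1 h2
    exact Prod.ext (by exact_mod_cast h1) (by exact_mod_cast h2)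
  unfold Sq
  rw [card_image_of_injective _ hinj]
  have h1 := card_filter_add_card_filter_not (s := range N ×ˢ range N)
    (fun p : ℕ × ℕ => p.1 < a ∧ p.2 < a)
  have h2 : (range N ×ˢ range N).filter (fun p : ℕ × ℕ => p.1 < a ∧ p.2 < a)
      = range a ×ˢ range a := by
    ext p
    simp only [mem_filter, mem_product, mem_range]
    constructor
    · rintro ⟨_, h⟩; exact h
    · rintro ⟨h, h'⟩; exact ⟨⟨by omega, by omega⟩, h, h'⟩
  rw [h2] at h1
  simp only [card_product, card_range] at h1
  omega

theorem proj_both {N a : ℕ} (g : Finset (Fin d)) :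
    ((Sq i j N a).image (pr g)).card ≤ (Sq i j N a).card := card_image_le

theorem proj_left {N a : ℕ} (g : Finset (Fin d)) (hj : j ∉ g) :
    ((Sq i j N a).image (pr g)).card ≤ N := by
  classical
  calc ((Sq i j N a).image (pr g)).card
      ≤ ((range N).image (fun u : ℕ => pr g (Pt i j (u : ℤ) 0))).card := by
        apply card_le_card
        intro z hz
        unfold Sq at hz
        simp only [mem_image, mem_filter, mem_product, mem_range] at hz ⊢
        obtain ⟨_, ⟨p, ⟨⟨hp1, _⟩, _⟩, rfl⟩, rfl⟩ := hz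
        refine ⟨p.1, hp1, ?_⟩
        funext k
        have hk : k.1 ≠ j := fun h => hj (h ▸ k.2)
        simp [pr, Pt, hk]
    _ ≤ (range N).card := card_image_le
    _ = N := card_range N

theorem proj_right {N a : ℕ} (g : Finset (Fin d)) (hi : i ∉ g) :
    ((Sq i j N a).image (pr g)).card ≤ N := by
  classical
  calc ((Sq i j N a).image (pr g)).card
      ≤ ((range N).image (fun u : ℕ => pr g (Pt i j 0 (u : ℤ)))).card := by
        apply card_le_card
        intro z hz
        unfold Sq at hz
        simp only [mem_image, mem_filter, mem_product, mem_range] at hz ⊢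
        obtain ⟨_, ⟨p, ⟨⟨_, hp1⟩, _⟩, rfl⟩, rfl⟩ := hz
        refine ⟨p.2, hp1, ?_⟩
        funext k
        have hk : k.1 ≠ i := fun h => hi (h ▸ k.2)
        simp [pr, Pt, hk]
    _ ≤ (range N).card := card_image_le
    _ = N := card_range N

theorem proj_none {N a : ℕ} (g : Finset (Fin d)) (hi : i ∉ g) (hj : j ∉ g) :
    ((Sq i j N a).image (pr g)).card ≤ 1 := by
  classical
  calc ((Sq i j N a).image (pr g)).card ≤ ({pr g (Pt i j 0 0)} : Finset _).card := by
        apply card_le_card
        intro z hz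
        unfold Sq at hz
        simp only [mem_image, mem_filter, mem_product, mem_range, mem_singleton] at hz ⊢
        obtain ⟨_, ⟨p, _, rfl⟩, rfl⟩ := hz
        funext k
        have hk : k.1 ≠ i := fun h => hi (h ▸ k.2)
        have hk' : k.1 ≠ j := fun h => hj (h ▸ k.2)
        simp [pr, Pt, hk, hk']
    _ = 1 := card_singleton _

/-- every box is far from the square with a corner removed -/
theorem far (hij : i ≠ j) {N a : ℕ} (ha0 : 0 < a) (ha : 2 * a ≤ N) (B : Fin d → Finset ℤ) :
    a * a ≤ (symmDiff (Sq i j N a) (Fintype.piFinset B)).card := by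
  classical
  have h := card_le_card_of_surjOn (s := symmDiff (Sq i j N a) (Fintype.piFinset B))
    (t := (range a ×ˢ range a))
    (fun q : Fin d → ℤ => (((q i) % (a : ℤ)).toNat, ((q j) % (a : ℤ)).toNat)) ?_
  · simpa using h
  intro p hp
  have hp := mem_coe.mp hp
  simp only [mem_product, mem_range] at hp
  have haZ : (0 : ℤ) < a := by exact_mod_cast ha0
  have hx : ((p.1 : ℤ)) % (a : ℤ) = p.1 := Int.emod_eq_of_lt (by positivity) (by exact_mod_cast hp.1)
  have hy : ((p.2 : ℤ)) % (a : ℤ) = p.2 := Int.emod_eq_of_lt (by positivity) (by exact_mod_cast hp.2)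
  have hS : ∀ u v : ℕ, Pt i j (u : ℤ) (v : ℤ) ∈ Sq i j N a ↔
      (u < N ∧ v < N) ∧ ¬ (u < a ∧ v < a) := by
    intro u v
    unfold Sq
    simp only [mem_image, mem_filter, mem_product, mem_range]
    constructor
    · rintro ⟨q, hq, h⟩
      have h1 := congrFun h i
      have h2 := congrFun h j
      simp only [Pt_i, Pt_j hij] at h1 h2
      have h1' : q.1 = u := by exact_mod_cast h1
      have h2' : q.2 = v := by exact_mod_cast h2
      rw [← h1', ← h2']
      exact hq
    · intro h
      exact ⟨(u, v), h, rfl⟩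
  have n1 : Pt i j (p.1 : ℤ) (p.2 : ℤ) ∉ Sq i j N a := by
    rw [hS]
    exact fun h => h.2 hp
  have n2 : Pt i j ((p.1 + a : ℕ) : ℤ) (p.2 : ℤ) ∈ Sq i j N a := by
    rw [hS]
    exact ⟨⟨by omega, by omega⟩, fun h => by omega⟩
  have n3 : Pt i j (p.1 : ℤ) ((p.2 + a : ℕ) : ℤ) ∈ Sq i j N a := by
    rw [hS]
    exact ⟨⟨by omega, by omega⟩, fun h => by omega⟩
  rw [Set.mem_image]
  by_cases c1 : Pt i j (p.1 : ℤ) (p.2 : ℤ) ∈ Fintype.piFinset B
  · refine ⟨_, mem_coe.mpr (mem_symmDiff.mpr (Or.inr ⟨c1, n1⟩)), ?_⟩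
    simp only [Pt_i, Pt_j hij, hx, hy]
    rfl
  by_cases c2 : Pt i j ((p.1 + a : ℕ) : ℤ) (p.2 : ℤ) ∈ Fintype.piFinset B
  · by_cases c3 : Pt i j (p.1 : ℤ) ((p.2 + a : ℕ) : ℤ) ∈ Fintype.piFinset B
    · exfalso
      apply c1
      rw [Fintype.mem_piFinset] at c2 c3 ⊢
      intro k
      by_cases hki : k = i
      · have := c3 k
        rw [hki, Pt_i] at this ⊢
        exact this
      · have := c2 k
        simp only [Pt, if_neg hki] at this ⊢
        exact this
    · refine ⟨_, mem_coe.mpr (mem_symmDiff.mpr (Or.inl ⟨n3, c3⟩)), ?_⟩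
      simp only [Pt_i, Pt_j hij]
      push_cast
      rw [Int.add_emod_right, hx, hy]
      rfl
  · refine ⟨_, mem_coe.mpr (mem_symmDiff.mpr (Or.inl ⟨n2, c2⟩)), ?_⟩
    simp only [Pt_i, Pt_j hij]
    push_cast
    rw [Int.add_emod_right, hx, hy]
    rfl

end

/-- sharpness for every uniform fractional cover -/
theorem sharp {d : ℕ} (w : Finset (Fin d) → ℝ) (hw : ∀ g, 0 ≤ w g) (m σ : ℝ)
    (hm : ∀ i : Fin d, ∑ g ∈ univ.filter (fun g => i ∈ g), w g = m)
    (i j : Fin d) (hij : i ≠ j)
    (hs : ∑ g ∈ univ.filter (fun g => i ∈ g ∧ j ∉ g), w g = σ) (hσ0 : 0 < σ)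
    (ε : ℝ) (hε : 0 < ε) (hε2 : ε ≤ σ / (2 * m)) :
    ∃ S : Finset (Fin d → ℤ), S.Nonempty ∧
      (1 - ε) * (∏ g, ((S.image (pr g)).card : ℝ) ^ w g) ^ (1 / m) ≤ S.card ∧
      ∀ B : Fin d → Finset ℤ,
        1 / 8 * (m / σ) * ε * S.card ≤ ((symmDiff S (Fintype.piFinset B)).card : ℝ) := by
  classical
  -- sums over the four classes of sets
  have hsplit : ∀ a b : Fin d, ∑ g ∈ univ.filter (fun g => a ∈ g ∧ b ∉ g), w g
      = m - ∑ g ∈ univ.filter (fun g => a ∈ g ∧ b ∈ g), w g := by
    intro a b
    have h1 := sum_filter_add_sum_filter_not (univ.filter (fun g : Finset (Fin d) => a ∈ g))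
      (fun g => b ∈ g) w
    rw [filter_filter, filter_filter, hm a] at h1
    linarith
  have hσm : σ ≤ m := by
    rw [← hs, hsplit i j]
    have : 0 ≤ ∑ g ∈ univ.filter (fun g => i ∈ g ∧ j ∈ g), w g := sum_nonneg fun g _ => hw g
    linarith
  have hm0 : 0 < m := lt_of_lt_of_le hσ0 hσm
  have hboth : ∑ g ∈ univ.filter (fun g => i ∈ g ∧ j ∈ g), w g = m - σ := by
    have := hsplit i j
    rw [hs] at this
    linarith
  have hright : ∑ g ∈ univ.filter (fun g => j ∈ g ∧ i ∉ g), w g = σ := by
    rw [hsplit j i]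
    have : univ.filter (fun g : Finset (Fin d) => j ∈ g ∧ i ∈ g)
        = univ.filter (fun g => i ∈ g ∧ j ∈ g) := by
      apply filter_congr
      intro g _
      exact and_comm
    rw [this, hboth]
    ring
  have hp1 : σ / (2 * m) ≤ 1 / 2 := by
    rw [div_le_div_iff₀ (by positivity) (by norm_num)]
    linarith
  -- the parameters
  set τ : ℝ := m * ε / (2 * σ) with hτ
  have hτ0 : 0 < τ := by positivity
  have hτ4 : τ ≤ 1 / 4 := by
    rw [hτ, div_le_div_iff₀ (by positivity) (by norm_num)]
    rw [le_div_iff₀ (by positivity)] at hε2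
    nlinarith
  have hr0 : 0 < Real.sqrt τ := Real.sqrt_pos.mpr hτ0
  have hr2 : Real.sqrt τ ≤ 1 / 2 := by
    rw [show (1 / 2 : ℝ) = Real.sqrt (1 / 4) by
      rw [show (1 / 4 : ℝ) = (1 / 2) ^ 2 by norm_num, Real.sqrt_sq (by norm_num)]]
    exact Real.sqrt_le_sqrt hτ4
  have hrr : Real.sqrt τ * Real.sqrt τ = τ := Real.mul_self_sqrt hτ0.le
  obtain ⟨N, hN⟩ := exists_nat_gt (1 / Real.sqrt τ)
  have hNR : (0 : ℝ) < N := lt_trans (by positivity) hN
  have hN1 : 1 < N * Real.sqrt τ := by
    rwa [div_lt_iff₀ hr0] at hN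
  set a : ℕ := ⌊(N : ℝ) * Real.sqrt τ⌋₊ with ha
  have ha1 : (a : ℝ) ≤ N * Real.sqrt τ := Nat.floor_le (by positivity)
  have ha0 : 0 < a := Nat.floor_pos.mpr hN1.le
  have ha1' : (1 : ℝ) ≤ a := by exact_mod_cast ha0
  have ha2 : (N : ℝ) * Real.sqrt τ < a + 1 := Nat.lt_floor_add_one _
  have ha3 : (N : ℝ) * Real.sqrt τ ≤ 2 * a := by linarith
  have ha4 : 2 * a ≤ N := by
    have : (2 : ℝ) * a ≤ N := by nlinarith
    exact_mod_cast this
  have hcard := card_Sq hij (N := N) (a := a) (by omega)
  have hcardR : ((Sq i j N a).card : ℝ) = N * N - a * a := by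
    have : ((Sq i j N a).card : ℝ) + a * a = N * N := by exact_mod_cast hcard
    linarith
  have haR : 2 * (a : ℝ) ≤ N := by exact_mod_cast ha4
  have hSpos : (0 : ℝ) < (Sq i j N a).card := by
    rw [hcardR]
    nlinarith
  have hSne : (Sq i j N a).Nonempty := by
    rw [← card_pos]
    exact_mod_cast hSpos
  refine ⟨Sq i j N a, hSne, ?_, ?_⟩
  · -- the hypothesis
    have hpos : ∀ g ∈ (univ : Finset (Finset (Fin d))),
        (0 : ℝ) < ((Sq i j N a).image (pr g)).card := by
      intro g _
      exact_mod_cast card_pos.mpr (hSne.image _)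
    have hprod : (0 : ℝ) < ∏ g, (((Sq i j N a).image (pr g)).card : ℝ) ^ w g :=
      prod_pos fun g hg => Real.rpow_pos_of_pos (hpos g hg) _
    have h1e : 0 < 1 - ε := by linarith
    have hsum : ∑ g, w g * Real.log ((Sq i j N a).image (pr g)).card
        ≤ (m - σ) * Real.log (Sq i j N a).card + 2 * σ * Real.log N := by
      have hterm : ∀ g ∈ (univ : Finset (Finset (Fin d))),
          w g * Real.log ((Sq i j N a).image (pr g)).card
          ≤ (if i ∈ g ∧ j ∈ g then w g else 0) * Real.log (Sq i j N a).card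
            + (if i ∈ g ∧ j ∉ g then w g else 0) * Real.log N
            + (if j ∈ g ∧ i ∉ g then w g else 0) * Real.log N := by
        intro g hg
        have hl := hpos g hg
        by_cases hi : i ∈ g
        · by_cases hj : j ∈ g
          · simp only [hi, hj, and_self, not_true_eq_false, and_false, if_true, if_false,
              zero_mul, add_zero]
            apply mul_le_mul_of_nonneg_left _ (hw g)
            exact Real.log_le_log hl (by exact_mod_cast proj_both g)
          · simp only [hi, hj, and_false, and_true, not_false_eq_true, if_true, if_false,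
              not_true_eq_false, zero_mul, add_zero, zero_add]
            apply mul_le_mul_of_nonneg_left _ (hw g)
            exact Real.log_le_log hl (by exact_mod_cast proj_left g hj)
        · by_cases hj : j ∈ g
          · simp only [hi, hj, and_true, false_and, not_true_eq_false, if_false,
              not_false_eq_true, if_true, zero_mul, zero_add]
            apply mul_le_mul_of_nonneg_left _ (hw g)
            exact Real.log_le_log hl (by exact_mod_cast proj_right g hi)
          · simp only [hi, hj, false_and, if_false, zero_mul, add_zero]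
            have h1 : (((Sq i j N a).image (pr g)).card : ℝ) = 1 := by
              have h2 := proj_none (N := N) (a := a) g hi hj
              have h3 : 0 < ((Sq i j N a).image (pr g)).card := card_pos.mpr (hSne.image _)
              have h4 : ((Sq i j N a).image (pr g)).card = 1 := by omega
              rw [h4]; norm_num
            rw [h1, Real.log_one, mul_zero]
      refine (sum_le_sum hterm).trans ?_
      rw [sum_add_distrib, sum_add_distrib, ← sum_mul, ← sum_mul, ← sum_mul,
        ← sum_filter, ← sum_filter, ← sum_filter, hboth, hs, hright]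
      apply le_of_eq
      ring
    have ht : Real.log (Sq i j N a).card
        = 2 * Real.log N + Real.log (1 - (a : ℝ) * a / (N * N)) := by
      have : ((Sq i j N a).card : ℝ) = (N * N) * (1 - (a : ℝ) * a / (N * N)) := by
        rw [hcardR]
        field_simp
      have h1 : (0 : ℝ) < 1 - (a : ℝ) * a / (N * N) := by
        rw [this] at hSpos
        exact (pos_iff_pos_of_mul_pos hSpos).mp (by positivity)
      rw [this, Real.log_mul (by positivity) h1.ne', Real.log_mul hNR.ne' hNR.ne']
      ring
    have htle : (a : ℝ) * a / (N * N) ≤ τ := by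
      rw [div_le_iff₀ (by positivity)]
      calc (a : ℝ) * a ≤ (N * Real.sqrt τ) * (N * Real.sqrt τ) := by
            apply mul_le_mul ha1 ha1 (by positivity) (by positivity)
        _ = (Real.sqrt τ * Real.sqrt τ) * (N * N) := by ring
        _ = τ * (N * N) := by rw [hrr]
    have hlog := log_one_sub_ge (ε := (a : ℝ) * a / (N * N)) (by positivity) (by linarith)
    have hlog2 : Real.log (1 - ε) ≤ -ε := by
      have := Real.log_le_sub_one_of_pos h1e
      linarith
    rw [← Real.log_le_log_iff (mul_pos h1e (Real.rpow_pos_of_pos hprod _)) hSpos,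
      Real.log_mul h1e.ne' (Real.rpow_pos_of_pos hprod _).ne', Real.log_rpow hprod,
      Real.log_prod (fun g hg => (Real.rpow_pos_of_pos (hpos g hg) _).ne')]
    have h2 : ∑ g, Real.log ((((Sq i j N a).image (pr g)).card : ℝ) ^ w g)
        = ∑ g, w g * Real.log ((Sq i j N a).image (pr g)).card :=
      sum_congr rfl fun g hg => Real.log_rpow (hpos g hg) _
    rw [h2]
    set L := Real.log (1 - (a : ℝ) * a / (N * N)) with hL
    have h3 : 1 / m * ∑ g, w g * Real.log ((Sq i j N a).image (pr g)).card
        ≤ Real.log (Sq i j N a).card - σ / m * L := by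
      have h4 := mul_le_mul_of_nonneg_left hsum (by positivity : (0 : ℝ) ≤ 1 / m)
      refine h4.trans (le_of_eq ?_)
      have h5 : (2 : ℝ) * Real.log N = Real.log (Sq i j N a).card - L := by linarith
      calc 1 / m * ((m - σ) * Real.log (Sq i j N a).card + 2 * σ * Real.log N)
          = 1 / m * ((m - σ) * Real.log (Sq i j N a).card + σ * (2 * Real.log N)) := by ring
        _ = 1 / m * ((m - σ) * Real.log (Sq i j N a).card
              + σ * (Real.log (Sq i j N a).card - L)) := by rw [h5]
        _ = Real.log (Sq i j N a).card - σ / m * L := by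
            field_simp
            ring
    have h6 : -(σ / m * L) ≤ ε := by
      have h7 : -(2 * τ) ≤ L := by linarith
      have h8 : σ / m * (-(2 * τ)) ≤ σ / m * L := mul_le_mul_of_nonneg_left h7 (by positivity)
      have h9 : σ / m * (-(2 * τ)) = -ε := by
        rw [hτ]
        field_simp
      linarith
    linarith
  · -- far from boxes
    intro B
    have h1 := far hij ha0 ha4 B
    have h1R : (a : ℝ) * a ≤ ((symmDiff (Sq i j N a) (Fintype.piFinset B)).card : ℝ) := by
      exact_mod_cast h1
    refine le_trans ?_ h1R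
    have h2 : ((Sq i j N a).card : ℝ) ≤ N * N := by
      rw [hcardR]
      nlinarith
    have h3 : τ * (N * N) ≤ 4 * (a * a) := by
      calc τ * (N * N) = (Real.sqrt τ * Real.sqrt τ) * (N * N) := by rw [hrr]
        _ = (N * Real.sqrt τ) * (N * Real.sqrt τ) := by ring
        _ ≤ (2 * a) * (2 * a) := mul_le_mul ha3 ha3 (by positivity) (by positivity)
        _ = 4 * (a * a) := by ring
    have h4 : 1 / 8 * (m / σ) * ε = τ / 4 := by
      rw [hτ]
      field_simp
      ring
    rw [h4]
    have h5 : τ / 4 * ((Sq i j N a).card : ℝ) ≤ τ / 4 * (N * N) :=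
      mul_le_mul_of_nonneg_left h2 (by positivity)
    linarith

end Pool.Agent.KS6_51.UC
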